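import Pool.Agent.Helper69.HA.Final
import Pool.Agent.Helper69.HA.Posit
import Pool.Agent.Helper52.MA.MainCH

/-!
# Whether compact hereditarily alpha-realcompact spaces are sequential is independent of ZFC

If `2 ^ ℵ₀ < 2 ^ ℵ₁` then all these spaces are sequential. The sentence
`HSent ω₁ (<) univ ... univ` gives such a space which is not sequential. The Continuum Hypothesis
and the sentence are true in countable transitive models of ZFC.
-/

set_option autoImplicit false

namespace Pool.Agent.Results.MP_c6a34c_gt.Independence

open Set Pool.Agent.Helper69.HA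
open Pool.Agent.Helper32.HB (IsTransModelZFC)
open Pool.Agent.Helper52.MA (CHModel)

/-- **Q1 is independent of ZFC.** If `2 ^ ℵ₀ < 2 ^ ℵ₁` then every compact Hausdorff, hereditarily
alpha-realcompact space is sequential, and the Continuum Hypothesis is true in a countable
transitive model of ZFC. If the sentence `HSent` is true then there is a compact Hausdorff,
hereditarily alpha-realcompact space which is not sequential, and the sentence is true in a countable
transitive model of ZFC. -/
theorem result :
    ((2 : Cardinal.{0}) ^ Cardinal.aleph0 < 2 ^ Cardinal.aleph 1 →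
      ∀ (X : Type) [TopologicalSpace X] [CompactSpace X] [T2Space X],
        HerAlphaRealcompact X → SequentialSpace X) ∧
    (∃ M : Set ZFSet.{0}, M.Countable ∧ IsTransModelZFC M ∧ CHModel M) ∧
    (HSent (Ordinal.omega.{0} 1).ToType (fun x y => x < y) univ univ univ univ univ →
      ∃ (X : Type) (_ : TopologicalSpace X), CompactSpace X ∧ T2Space X ∧
        HerAlphaRealcompact X ∧ ¬ SequentialSpace X) ∧
    ∃ M : Set ZFSet.{0}, M.Countable ∧ IsTransModelZFC M ∧ HModel M :=
  ⟨fun hc X _ _ _ h => seq_of_har hc h, Pool.Agent.Helper52.MA.exists_ch_model,
    space_of_sent (Ordinal.omega.{0} 1).ToType omega1_real, exists_ha_model⟩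

end Pool.Agent.Results.MP_c6a34c_gt.Independence
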